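import Mathlib

/-! Real analysis for the part A2 of project GF. -/

set_option autoImplicit false

namespace Pool.Agent.TH263.GF

open MeasureTheory Set Filter

/-- a product of at most four nonnegative numbers -/
theorem prod_le {k : ℕ} (hk : k ≤ 4) (x : Fin k → ℝ) (hx : ∀ j, 0 ≤ x j) :
    ∏ j, x j ≤ 1 + ∑ j, x j ^ 4 := by
  have hs : 0 ≤ ∑ j, x j ^ 4 := Finset.sum_nonneg fun j _ => pow_nonneg (hx j) 4
  rcases Nat.eq_zero_or_pos k with h0 | h0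
  · subst h0
    simp
  have : Nonempty (Fin k) := ⟨⟨0, h0⟩⟩
  obtain ⟨j0, -, hj0⟩ := Finset.exists_max_image Finset.univ x Finset.univ_nonempty
  by_cases h1 : x j0 ≤ 1
  · have h2 : ∏ j, x j ≤ 1 :=
      Finset.prod_le_one (fun j _ => hx j) fun j hj => (hj0 j hj).trans h1
    linarith
  · rw [not_le] at h1
    have h2 : ∏ j, x j ≤ ∏ _j : Fin k, x j0 :=
      Finset.prod_le_prod (fun j _ => hx j) fun j hj => hj0 j hj
    rw [Finset.prod_const, Finset.card_univ, Fintype.card_fin] at h2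
    have h3 : x j0 ^ k ≤ x j0 ^ 4 := pow_le_pow_right₀ h1.le hk
    have h4 : x j0 ^ 4 ≤ ∑ j, x j ^ 4 :=
      Finset.single_le_sum (f := fun j => x j ^ 4) (fun j _ => pow_nonneg (hx j) 4)
        (Finset.mem_univ j0)
    linarith

/-- the eighth moment -/
theorem eighth (h : ℝ → ℝ) (hc : Continuous h) (h0 : ∀ u, 0 ≤ h u) (he : ∀ u, h (-u) = h u)
    {C1 : ℝ} (hg : ∀ u, h u ≤ C1 * (1 + |u|) ^ (1 / 6 + 1 / 100 : ℝ))
    (h4 : ∀ T : ℝ, 1000 ≤ T → ∫ t in (0:ℝ)..T, h t ^ 4 ≤ 4 / 5 * (T * Real.log T ^ 4)) (a : ℝ) :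
    ∃ C : ℝ, 0 < C ∧ ∀ T : ℝ, 1000 ≤ T → |a| ≤ T →
      ∫ t in (0:ℝ)..T, h (t + a) ^ 8 ≤ C * T ^ (7 / 4 : ℝ) := by
  have hC1 : 0 ≤ C1 := by
    have h1 := (h0 0).trans (hg 0)
    rwa [abs_zero, add_zero, Real.one_rpow, mul_one] at h1
  have hc8 : Continuous fun u => h u ^ 8 := hc.pow 8
  have hc4 : Continuous fun u => h u ^ 4 := hc.pow 4
  refine ⟨2 * (C1 ^ 4 + 1) * 100 ^ 4 * 3 ^ (7 / 4 : ℝ), by positivity, fun T hT haT => ?_⟩
  have hT0 : 0 < T := by linarith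
  set B : ℝ := T + |a| with hB
  have ha := abs_le.1 (le_refl |a|)
  have hB0 : 1000 ≤ B := by have := abs_nonneg a; linarith
  have h1 : ∫ t in (0:ℝ)..T, h (t + a) ^ 8 = ∫ u in (0 + a)..(T + a), h u ^ 8 :=
    intervalIntegral.integral_comp_add_right (fun u => h u ^ 8) a
  have h2 : ∫ u in (0 + a)..(T + a), h u ^ 8 ≤ ∫ u in (-B)..B, h u ^ 8 := by
    refine intervalIntegral.integral_mono_interval (by linarith) (by linarith) (by linarith) ?_
      (hc8.intervalIntegrable _ _)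
    exact Eventually.of_forall fun u => pow_nonneg (h0 u) 8
  have h3 : ∫ u in (-B)..B, h u ^ 8 = 2 * ∫ u in (0:ℝ)..B, h u ^ 8 := by
    rw [← intervalIntegral.integral_add_adjacent_intervals (hc8.intervalIntegrable (-B) 0)
      (hc8.intervalIntegrable 0 B)]
    have h5 : ∫ u in (0:ℝ)..B, h (-u) ^ 8 = ∫ u in (-B)..(-0), h u ^ 8 :=
      intervalIntegral.integral_comp_neg (fun u => h u ^ 8)
    rw [neg_zero] at h5
    rw [← h5]
    simp only [he]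
    ring
  set K : ℝ := C1 * (1 + B) ^ (1 / 6 + 1 / 100 : ℝ) with hK
  have hK0 : 0 ≤ K := by positivity
  have h6 : ∫ u in (0:ℝ)..B, h u ^ 8 ≤ ∫ u in (0:ℝ)..B, K ^ 4 * h u ^ 4 := by
    refine intervalIntegral.integral_mono_on (by linarith) (hc8.intervalIntegrable _ _)
      ((continuous_const.mul hc4).intervalIntegrable _ _) ?_
    intro u hu
    have h7 : h u ≤ K := by
      refine (hg u).trans ?_
      apply mul_le_mul_of_nonneg_left _ hC1
      apply Real.rpow_le_rpow (by positivity) _ (by norm_num)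
      rw [abs_of_nonneg hu.1]
      linarith [hu.2]
    have h8 : h u ^ 8 = h u ^ 4 * h u ^ 4 := by ring
    rw [h8]
    exact mul_le_mul_of_nonneg_right (pow_le_pow_left₀ (h0 u) h7 4) (pow_nonneg (h0 u) 4)
  rw [intervalIntegral.integral_const_mul] at h6
  have h9 := mul_le_mul_of_nonneg_left (h4 B hB0) (pow_nonneg hK0 4)
  -- numerical part
  have hB3 : 1 + B ≤ 3 * T := by rw [hB]; linarith
  have hB3' : B ≤ 3 * T := by linarith
  have hX : (1:ℝ) ≤ 3 * T := by linarith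
  have hX0 : (0:ℝ) < 3 * T := by linarith
  have hK4 : K ^ 4 ≤ C1 ^ 4 * (3 * T) ^ (2 / 3 + 1 / 25 : ℝ) := by
    rw [hK, mul_pow]
    apply mul_le_mul_of_nonneg_left _ (by positivity)
    rw [← Real.rpow_natCast, ← Real.rpow_mul (by linarith)]
    have e1 : ((1 / 6 + 1 / 100 : ℝ) * ((4 : ℕ) : ℝ)) = 2 / 3 + 1 / 25 := by push_cast; norm_num
    rw [e1]
    exact Real.rpow_le_rpow (by linarith) hB3 (by norm_num)
  have hlog : Real.log B ^ 4 ≤ 100 ^ 4 * (3 * T) ^ (1 / 25 : ℝ) := by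
    have h10 : Real.log B ≤ 100 * (3 * T) ^ (1 / 100 : ℝ) := by
      have h11 := Real.log_le_rpow_div (x := B) (by linarith) (ε := 1 / 100) (by norm_num)
      have h12 : B ^ (1 / 100 : ℝ) ≤ (3 * T) ^ (1 / 100 : ℝ) :=
        Real.rpow_le_rpow (by linarith) hB3' (by norm_num)
      have h13 : B ^ (1 / 100 : ℝ) / (1 / 100) = 100 * B ^ (1 / 100 : ℝ) := by ring
      rw [h13] at h11
      linarith
    have h14 : 0 ≤ Real.log B := Real.log_nonneg (by linarith)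
    have h15 := pow_le_pow_left₀ h14 h10 4
    rw [mul_pow, ← Real.rpow_natCast ((3 * T) ^ (1 / 100 : ℝ)), ← Real.rpow_mul hX0.le] at h15
    have e2 : ((1 / 100 : ℝ) * ((4 : ℕ) : ℝ)) = 1 / 25 := by push_cast; norm_num
    rwa [e2] at h15
  have hfin : K ^ 4 * (4 / 5 * (B * Real.log B ^ 4)) ≤
      (C1 ^ 4 + 1) * 100 ^ 4 * 3 ^ (7 / 4 : ℝ) * T ^ (7 / 4 : ℝ) := by
    have h16 : B * Real.log B ^ 4 ≤ (3 * T) * (100 ^ 4 * (3 * T) ^ (1 / 25 : ℝ)) :=
      mul_le_mul hB3' hlog (by positivity) hX0.le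
    have h17 : K ^ 4 * (4 / 5 * (B * Real.log B ^ 4)) ≤
        (C1 ^ 4 * (3 * T) ^ (2 / 3 + 1 / 25 : ℝ)) *
          (1 * ((3 * T) * (100 ^ 4 * (3 * T) ^ (1 / 25 : ℝ)))) := by
      apply mul_le_mul hK4 _ (by have := Real.log_nonneg (by linarith : (1:ℝ) ≤ B); positivity)
        (by positivity)
      apply mul_le_mul (by norm_num) h16 (by positivity) (by norm_num)
    refine h17.trans ?_
    have h18 : (C1 ^ 4 * (3 * T) ^ (2 / 3 + 1 / 25 : ℝ)) *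
          (1 * ((3 * T) * (100 ^ 4 * (3 * T) ^ (1 / 25 : ℝ)))) =
        C1 ^ 4 * 100 ^ 4 * ((3 * T) ^ (2 / 3 + 1 / 25 : ℝ) * (3 * T) ^ (1 : ℝ) *
          (3 * T) ^ (1 / 25 : ℝ)) := by
      rw [Real.rpow_one]; ring
    rw [h18, ← Real.rpow_add hX0, ← Real.rpow_add hX0]
    have h19 : (3 * T) ^ (2 / 3 + 1 / 25 + 1 + 1 / 25 : ℝ) ≤ (3 * T) ^ (7 / 4 : ℝ) :=
      Real.rpow_le_rpow_of_exponent_le hX (by norm_num)
    have h20 : (3 * T) ^ (7 / 4 : ℝ) = 3 ^ (7 / 4 : ℝ) * T ^ (7 / 4 : ℝ) :=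
      Real.mul_rpow (by norm_num) hT0.le
    rw [h20] at h19
    have h21 : (0:ℝ) ≤ 3 ^ (7 / 4 : ℝ) * T ^ (7 / 4 : ℝ) := by positivity
    calc C1 ^ 4 * 100 ^ 4 * (3 * T) ^ (2 / 3 + 1 / 25 + 1 + 1 / 25 : ℝ)
        ≤ C1 ^ 4 * 100 ^ 4 * (3 ^ (7 / 4 : ℝ) * T ^ (7 / 4 : ℝ)) :=
          mul_le_mul_of_nonneg_left h19 (by positivity)
      _ ≤ (C1 ^ 4 + 1) * 100 ^ 4 * (3 ^ (7 / 4 : ℝ) * T ^ (7 / 4 : ℝ)) := by
          apply mul_le_mul_of_nonneg_right _ h21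
          linarith [pow_nonneg hC1 4]
      _ = _ := by ring
  rw [h1]
  calc _ ≤ _ := h2
    _ = _ := h3
    _ ≤ 2 * (K ^ 4 * ∫ u in (0:ℝ)..B, h u ^ 4) := by linarith
    _ ≤ 2 * ((C1 ^ 4 + 1) * 100 ^ 4 * 3 ^ (7 / 4 : ℝ) * T ^ (7 / 4 : ℝ)) := by linarith
    _ = _ := by ring

/-- the mean square of a product of at most four shifts -/
theorem prod_moment (h : ℝ → ℝ) (hc : Continuous h) (h0 : ∀ u, 0 ≤ h u) (he : ∀ u, h (-u) = h u)
    {C1 : ℝ} (hg : ∀ u, h u ≤ C1 * (1 + |u|) ^ (1 / 6 + 1 / 100 : ℝ))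
    (h4 : ∀ T : ℝ, 1000 ≤ T → ∫ t in (0:ℝ)..T, h t ^ 4 ≤ 4 / 5 * (T * Real.log T ^ 4))
    {k : ℕ} (hk : k ≤ 4) (α : Fin k → ℝ) :
    ∃ C T₀ : ℝ, 0 < C ∧ 2 ≤ T₀ ∧ ∀ T : ℝ, T₀ ≤ T →
      ∫ t in (0:ℝ)..T, (∏ j, h (t + α j)) ^ 2 ≤ C * T ^ (7 / 4 : ℝ) := by
  choose C hC hCT using fun j => eighth h hc h0 he hg h4 (α j)
  refine ⟨1 + ∑ j, C j, 1000 + ∑ j, |α j|, ?_, ?_, fun T hT => ?_⟩
  · have : 0 ≤ ∑ j, C j := Finset.sum_nonneg fun j _ => (hC j).le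
    linarith
  · have : 0 ≤ ∑ j, |α j| := Finset.sum_nonneg fun j _ => abs_nonneg _
    linarith
  have hs : 0 ≤ ∑ j, |α j| := Finset.sum_nonneg fun j _ => abs_nonneg _
  have hT1 : 1000 ≤ T := by linarith
  have hαT : ∀ j, |α j| ≤ T := by
    intro j
    have : |α j| ≤ ∑ j, |α j| := Finset.single_le_sum (f := fun j => |α j|)
      (fun j _ => abs_nonneg _) (Finset.mem_univ j)
    linarith
  have hcj : ∀ j, Continuous fun t => h (t + α j) ^ 8 := fun j =>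
    (hc.comp (continuous_id.add continuous_const)).pow 8
  have h1 : ∫ t in (0:ℝ)..T, (∏ j, h (t + α j)) ^ 2 ≤
      ∫ t in (0:ℝ)..T, (1 + ∑ j, h (t + α j) ^ 8) := by
    refine intervalIntegral.integral_mono_on (by linarith) ?_ ?_ ?_
    · apply Continuous.intervalIntegrable
      exact (continuous_finsetProd _ fun j _ =>
        hc.comp (continuous_id.add continuous_const)).pow 2
    · apply Continuous.intervalIntegrable
      exact continuous_const.add (continuous_finsetSum _ fun j _ => hcj j)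
    · intro t _
      rw [← Finset.prod_pow]
      refine (prod_le hk (fun j => h (t + α j) ^ 2) fun j => by positivity).trans (le_of_eq ?_)
      congr 1
      refine Finset.sum_congr rfl fun j _ => ?_
      ring
  have h2 : ∫ t in (0:ℝ)..T, (1 + ∑ j, h (t + α j) ^ 8) =
      T + ∑ j, ∫ t in (0:ℝ)..T, h (t + α j) ^ 8 := by
    rw [intervalIntegral.integral_add intervalIntegrable_const
      ((continuous_finsetSum _ fun j _ => hcj j).intervalIntegrable _ _),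
      intervalIntegral.integral_finsetSum fun j _ => (hcj j).intervalIntegrable _ _]
    congr 1
    rw [intervalIntegral.integral_const]
    simp
  rw [h2] at h1
  refine h1.trans ?_
  have h3 : ∑ j, ∫ t in (0:ℝ)..T, h (t + α j) ^ 8 ≤ ∑ j, C j * T ^ (7 / 4 : ℝ) :=
    Finset.sum_le_sum fun j _ => hCT j T hT1 (hαT j)
  have h5 : T ≤ T ^ (7 / 4 : ℝ) := by
    have := Real.rpow_le_rpow_of_exponent_le (by linarith : (1:ℝ) ≤ T)
      (by norm_num : (1:ℝ) ≤ 7 / 4)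
    rwa [Real.rpow_one] at this
  rw [← Finset.sum_mul] at h3
  calc T + ∑ j, ∫ t in (0:ℝ)..T, h (t + α j) ^ 8 ≤ T ^ (7 / 4 : ℝ) + (∑ j, C j) * T ^ (7 / 4 : ℝ) :=
        add_le_add h5 h3
    _ = _ := by ring

end Pool.Agent.TH263.GF
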