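import Pool.Agent.TH612.GS.Stm3
import Pool.Agent.TH809.MZ.Fin
import Pool.Agent.TH158.FM.Main
import Pool.Agent.TH263.GF.A2abs

/-! Part A2 of project GF: mean square of the product of at most four shifted zeta values. -/

set_option autoImplicit false

namespace Pool.Agent.TH263.GF

open Complex MeasureTheory Set
open Pool.Agent.TH612.GS

theorem t_A2_of (hgrow : ∀ ε : ℝ, 0 < ε → ∃ C : ℝ, ∀ t : ℝ,
      ‖riemannZeta ⟨1 / 2, t⟩‖ ≤ C * (1 + |t|) ^ (1 / 6 + ε))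
    (h4 : ∀ T : ℝ, 1000 ≤ T → ∫ t in (0:ℝ)..T, ‖riemannZeta (((1 / 2 : ℝ) : ℂ) + (t : ℂ) * I)‖ ^ 4 ≤
      4 / 5 * (T * Real.log T ^ 4)) : S_A2 := by
  intro k α hk
  obtain ⟨C1, hC1⟩ := hgrow (1 / 100) (by norm_num)
  have hz1 : ∀ u : ℝ, z u = riemannZeta ⟨1 / 2, u⟩ := by
    intro u
    unfold z
    congr 1
    apply Complex.ext <;> simp
  have hz2 : ∀ u : ℝ, z u = riemannZeta (((1 / 2 : ℝ) : ℂ) + (u : ℂ) * I) := by
    intro u
    unfold z
    congr 1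
    push_cast
    ring
  have hz3 : ∀ u : ℝ, ‖z (-u)‖ = ‖z u‖ := by
    intro u
    have h1 : z (-u) = (starRingEnd ℂ) (z u) := by
      rw [hz1, hz1, ← riemannZeta_conj]
      congr 1
    rw [h1, Complex.norm_conj]
  obtain ⟨C, T0, hC, hT0, hT⟩ := prod_moment (fun u => ‖z u‖) z_cont.norm (fun u => norm_nonneg _)
    hz3 (C1 := C1) (fun u => by rw [hz1]; exact hC1 u)
    (fun T hT => by simpa only [hz2] using h4 T hT) hk α
  refine ⟨C, T0, hC, hT0, fun T hTT => ?_⟩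
  refine le_trans (le_of_eq ?_) (hT T hTT)
  congr 1
  ext t
  unfold AA
  rw [norm_prod]

/-- A2: mean square of the fixed block -/
theorem t_A2 : Pool.Agent.TH612.GS.S_A2 :=
  t_A2_of Pool.Agent.TH809.MZ.growth_weyl Pool.Agent.TH158.FM.fourth_all

end Pool.Agent.TH263.GF
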